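import Pool.Agent.Lib.MP_c7af3c_ag.FANO.H54.Rest
import Pool.Agent.Lib.MP_c7af3c_ag.LINES.H19.Bas

/-!
# MP_c7af3c_ag, project FANO: choice of the columns (module BASR)
-/

set_option autoImplicit false

namespace Pool.Agent.Fano.H21

open MvPolynomial Pool.Agent.Gen Pool.Agent.Sharp Pool.Agent.Fano

section

variable {L : Type} [Field L] {n c r : ℕ} {d : Fin c → ℕ} (D : DSys L n c d)
  (x : Fin r → Fin (n + 1) → L)

/-- `VV` as a linear map -/
noncomputable def VVl : (Fin c → MvPolynomial (Fin (n + 1)) L) →ₗ[L]
    (Fin r × Fin (n + 1) → L) where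
  toFun := VV D x
  map_add' G G' := by
    funext s
    rw [Pi.add_apply]
    unfold VV
    rw [map_add]
    rfl
  map_smul' a G := by
    funext s
    rw [Pi.smul_apply, RingHom.id_apply]
    unfold VV
    rw [map_smul]
    rfl

theorem VVl_apply (G : Fin c → MvPolynomial (Fin (n + 1)) L) : VVl D x G = VV D x G := rfl

theorem sum_one1 (G : Fin c → MvPolynomial (Fin (n + 1)) L) : G = ∑ m, one1 m (G m) := by
  classical
  funext m
  rw [Finset.sum_apply]
  unfold one1
  simp

/-- the columns `LC` -/
noncomputable def gLC : {l : LC n c r // l.Ok d} → (Fin r × Fin (n + 1) → L) :=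
  fun l => l.1.val D x

theorem VV_span [CharZero L] (hli : LidlrStatement) (hx : LinearIndependent L x)
    {G : Fin c → MvPolynomial (Fin (n + 1)) L} (hG : Hom d G) (h0 : OnP x G) :
    VV D x G ∈ Submodule.span L (Set.range (gLC D x)) := by
  rw [← VVl_apply, sum_one1 G, map_sum]
  refine Submodule.sum_mem _ fun m _ => ?_
  have h1 := hli L n r (d m) x hx (G m) (hG m) (h0 m)
  have h2 : ∀ P ∈ Submodule.span L {P | ∃ J k, ∃ I : Fin (n + 1) →₀ ℕ, I.degree + 1 = d m ∧
      P = hJ x J k * monomial I 1}, VVl D x (one1 m P) ∈
        Submodule.span L (Set.range (gLC D x)) := by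
    intro P hP
    induction hP using Submodule.span_induction with
    | mem P h =>
      obtain ⟨J, k, I, hI, rfl⟩ := h
      exact Submodule.subset_span ⟨⟨LC.H m J k I, hI⟩, rfl⟩
    | zero =>
      have : (one1 m 0 : Fin c → MvPolynomial (Fin (n + 1)) L) = 0 := by
        funext m'
        unfold one1
        split_ifs <;> rfl
      rw [this, map_zero]
      exact Submodule.zero_mem _
    | add P Q _ _ hP hQ =>
      have : (one1 m (P + Q) : Fin c → MvPolynomial (Fin (n + 1)) L) = one1 m P + one1 m Q := by
        funext m'
        rw [Pi.add_apply]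
        unfold one1
        split_ifs
        · rfl
        · rw [add_zero]
      rw [this, map_add]
      exact Submodule.add_mem _ hP hQ
    | smul a P _ hP =>
      have : (one1 m (a • P) : Fin c → MvPolynomial (Fin (n + 1)) L) = a • one1 m P := by
        funext m'
        rw [Pi.smul_apply]
        unfold one1
        split_ifs
        · rfl
        · rw [smul_zero]
      rw [this, map_smul]
      exact Submodule.smul_mem _ _ hP
  exact h2 _ h1

theorem hom_hJ (J : Fin r → Fin (n + 1)) (k : Fin (n + 1)) : (hJ x J k).IsHomogeneous 1 := by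
  unfold hJ
  have h1 : ∀ (a : L) (p : Fin (n + 1)),
      (C a * X p : MvPolynomial (Fin (n + 1)) L).IsHomogeneous 1 := by
    intro a p
    have := (isHomogeneous_C (Fin (n + 1)) a).mul (isHomogeneous_X L p)
    rwa [zero_add] at this
  exact (h1 _ _).sub (IsHomogeneous.sum _ _ _ fun b _ => h1 _ _)

theorem SL_eq [CharZero L] (hli : LidlrStatement) (hx : LinearIndependent L x) :
    SL D x = Submodule.span L (Set.range (PP x) ∪ Set.range (gLC D x)) := by
  apply le_antisymm
  · unfold SL
    rw [Submodule.span_le]
    rintro u ((hu | ⟨p, q, rfl⟩) | ⟨G, hG, h0, rfl⟩)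
    · exact Submodule.subset_span (Or.inl hu)
    · exact Submodule.subset_span (Or.inr ⟨⟨LC.W p q, trivial⟩, rfl⟩)
    · exact Submodule.span_mono Set.subset_union_right (VV_span D x hli hx hG h0)
  · rw [Submodule.span_le]
    rintro u (hu | ⟨⟨l, hl⟩, rfl⟩)
    · exact Submodule.subset_span (Or.inl (Or.inl hu))
    · cases l with
      | W p q => exact Submodule.subset_span (Or.inl (Or.inr ⟨p, q, rfl⟩))
      | H m J k I =>
        refine Submodule.subset_span (Or.inr ⟨_, fun m' => ?_, fun m' => ?_, rfl⟩)
        · unfold one1
          split_ifs with h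
          · subst h
            have h1 := (hom_hJ x J k).mul (isHomogeneous_monomial (1 : L)
              (show I.degree = I.degree from rfl))
            have h2 : 1 + I.degree = d m' := by
              have : I.degree + 1 = d m' := hl
              omega
            rwa [h2] at h1
          · exact isHomogeneous_zero _ _ _
        · unfold one1
          split_ifs with h
          · rw [map_mul, H54.restP_hJ, zero_mul]
          · exact map_zero _

theorem PP_li {x : Fin r → Fin (n + 1) → L} (hx : LinearIndependent L x) :
    LinearIndependent L (PP x) := by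
  classical
  rw [Fintype.linearIndependent_iff] at hx ⊢
  intro g hg
  rintro ⟨a, b⟩
  have h1 : ∑ b, g (a, b) • x b = 0 := by
    funext p
    have h2 := congrFun hg (a, p)
    rw [Finset.sum_apply, Fintype.sum_prod_type] at h2
    simp only [Pi.smul_apply, PP, smul_eq_mul, Pi.zero_apply, mul_ite, mul_zero] at h2
    rw [Finset.sum_eq_single a] at h2
    · rw [Finset.sum_apply]
      simpa using h2
    · intro a' _ ha'
      exact Finset.sum_eq_zero fun b _ => if_neg (Ne.symm ha')
    · intro h
      exact absurd (Finset.mem_univ _) h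
  exact hx _ h1 b

end

/-- Module BASR. -/
theorem basr (h1 : PhirStatement) (h2 : LidlrStatement) (h3 : LsurrStatement) :
    BasrStatement := by
  classical
  intro L _ _ n c r d D x hx hF J0 hJ0
  have hdim := h1 L n c r d D x hx hF
  have hsur := h3 L n c r d D x hx J0 hJ0
  have hcard : Fintype.card (Hix r d) = dimH r d := by
    unfold dimH
    rw [Fintype.card_sigma]
  have hcr : Fintype.card (Fin r × Fin r) = r * r := by simp
  have hle : r * (n + 1) ≤ Module.finrank L (SL D x) + dimH r d := by
    have e1 := Submodule.finrank_add_le_finrank_add_finrank (SL D x)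
      (Submodule.span L (Set.range fun b => VV D x (mon d J0 b)))
    rw [hsur, finrank_top, Module.finrank_pi, Fintype.card_prod, Fintype.card_fin,
      Fintype.card_fin] at e1
    have e2 := finrank_range_le_card (R := L) (fun b : Hix r d => VV D x (mon d J0 b))
    rw [hcard] at e2
    change Module.finrank L (Submodule.span L (Set.range fun b => VV D x (mon d J0 b))) ≤ _ at e2
    omega
  have heq : Module.finrank L (SL D x) + dimH r d = r * (n + 1) := le_antisymm hdim hle
  have hPPle : r * r ≤ Module.finrank L (SL D x) := by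
    have e1 := finrank_span_eq_card (PP_li hx)
    rw [hcr] at e1
    rw [← e1]
    apply Submodule.finrank_mono
    rw [Submodule.span_le]
    intro u hu
    exact Submodule.subset_span (Or.inl (Or.inl hu))
  obtain ⟨q, hq⟩ := Nat.exists_eq_add_of_le hPPle
  obtain ⟨ψ, hψ⟩ := Lines.H19.ext_fam (PP x) (PP_li hx) (gLC D x) q (by
    rw [← SL_eq D x h2 hx, hq, hcr])
  have hC : gLC D x ∘ ψ = fun s => (ψ s).1.val D x := rfl
  rw [hC] at hψ
  have hsp : Submodule.span L (Set.range (PP x) ∪ Set.range fun s => (ψ s).1.val D x) =
      SL D x := by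
    have e1 : Set.range (PP x) ∪ (Set.range fun s => (ψ s).1.val D x) =
        Set.range (Sum.elim (PP x) fun s => (ψ s).1.val D x) := by
      rw [Set.Sum.elim_range]
    apply Submodule.eq_of_le_of_finrank_eq
    · rw [SL_eq D x h2 hx, Submodule.span_le]
      rintro u (hu | ⟨s, rfl⟩)
      · exact Submodule.subset_span (Or.inl hu)
      · exact Submodule.subset_span (Or.inr ⟨ψ s, rfl⟩)
    · rw [hq, e1, finrank_span_eq_card hψ, Fintype.card_sum, hcr, Fintype.card_fin]
  refine ⟨q, fun s => (ψ s).1, by omega, fun s => (ψ s).2, ?_, ?_⟩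
  · intro G hG h0
    rw [hsp]
    exact Submodule.subset_span (Or.inr ⟨G, hG, h0, rfl⟩)
  · apply linearIndependent_of_top_le_span_of_card_eq_finrank
    · unfold colF
      rw [Set.Sum.elim_range, Set.Sum.elim_range, Submodule.span_union, hsp, hsur]
    · rw [Fintype.card_sum, Fintype.card_sum, hcr, Fintype.card_fin, hcard, Module.finrank_pi,
        Fintype.card_prod, Fintype.card_fin, Fintype.card_fin]
      omega

end Pool.Agent.Fano.H21
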